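import Pool.Agent.Q163.RX.Mgf

/-! Random sequences modulo 2 with fresh bits: the correlations. -/

set_option autoImplicit false

namespace Pool.Agent.Q163.PT

open Finset MeasureTheory ProbabilityTheory Pool.Agent.Q163.RP Pool.Agent.Q163.RX

/-- the character of `ZMod 2` -/
noncomputable def ch2 (x : ZMod 2) : ℝ := if x = 0 then 1 else -1

lemma z2 (x : ZMod 2) : x = 0 ∨ x = 1 := by
  fin_cases x
  · exact Or.inl rfl
  · exact Or.inr rfl

lemma ch2_add (x y : ZMod 2) : ch2 (x + y) = ch2 x * ch2 y := by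
  have h1 : (1 : ZMod 2) ≠ 0 := by decide
  have h2 : (1 + 1 : ZMod 2) = 0 := by decide
  rcases z2 x with rfl | rfl <;> rcases z2 y with rfl | rfl <;> simp [ch2, h1, h2]

lemma abs_ch2 (x : ZMod 2) : |ch2 x| = 1 := by
  unfold ch2
  split_ifs <;> simp

/-- the indicator function of `0` -/
noncomputable def i0 (x : ZMod 2) : ℝ := if x = 0 then 1 else 0

lemma i0_eq (x : ZMod 2) : (1 + ch2 x) / 2 = i0 x := by
  unfold i0 ch2
  split_ifs <;> norm_num

lemma i0_succ (x : ZMod 2) : i0 (x + 1) = 1 - i0 x := by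
  have h1 : (1 : ZMod 2) ≠ 0 := by decide
  have h2 : (1 + 1 : ZMod 2) = 0 := by decide
  rcases z2 x with rfl | rfl <;> simp [i0, h1, h2]

lemma i0_nonneg (x : ZMod 2) : 0 ≤ i0 x := by
  unfold i0
  split_ifs <;> norm_num

lemma i0_le (x : ZMod 2) : i0 x ≤ 1 := by
  unfold i0
  split_ifs <;> norm_num

/-- a random sequence modulo 2 with fresh bits at the elements of `T` -/
structure Fam (T : Set ℕ) (q : (ℕ → Bool) → ℕ → ZMod 2) : Prop where
  loc : ∀ n ω ω', (∀ i ≤ n, ω i = ω' i) → q ω n = q ω' n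
  mid : ∀ t ∈ T, ∀ ω n, t ≤ n → n < 2 * t → q (fl t ω) n = q ω n + q ω (n - t)
  zero : ∀ ω, q ω 0 = 1

variable {T : Set ℕ} {q : (ℕ → Bool) → ℕ → ZMod 2}

lemma Fam.low (hq : Fam T q) {t n : ℕ} (h : n < t) (ω : ℕ → Bool) : q (fl t ω) n = q ω n := by
  refine hq.loc n _ _ fun i hi => ?_
  unfold fl
  rw [if_neg (by omega)]

lemma meas_loc {β : Type*} [MeasurableSpace β] (g : (ℕ → Bool) → β) (n : ℕ)
    (h : ∀ ω ω', (∀ i ≤ n, ω i = ω' i) → g ω = g ω') : Measurable g := by
  have h1 : g = (fun v : Fin (n + 1) → Bool => g fun i => if hi : i < n + 1 then v ⟨i, hi⟩ else false) ∘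
      fun ω (i : Fin (n + 1)) => ω i := by
    funext ω
    refine h _ _ fun i hi => ?_
    rw [dif_pos (by omega)]
  rw [h1]
  exact (measurable_of_finite _).comp (measurable_pi_lambda _ fun i => measurable_pi_apply _)

lemma Fam.meas (hq : Fam T q) {β : Type*} [MeasurableSpace β] (f : ZMod 2 → β) (n : ℕ) :
    Measurable fun ω => f (q ω n) :=
  meas_loc _ n fun ω ω' h => by rw [hq.loc n ω ω' h]

/-- the coefficient of the bit `m - s` -/
noncomputable def cf (q : (ℕ → Bool) → ℕ → ZMod 2) (n m s : ℕ) (ω : ℕ → Bool) : ZMod 2 :=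
  q ω s + if m - s ≤ n then q ω (n - (m - s)) else 0

lemma Fam.meas_cf (hq : Fam T q) (n m s : ℕ) (hm : n < m) :
    Measurable fun ω => i0 (cf q n m s ω) := by
  refine meas_loc _ s fun ω ω' h => ?_
  unfold cf
  rw [hq.loc s ω ω' h]
  split_ifs with h1
  · rw [hq.loc _ ω ω' fun i hi => h i (by omega)]
  · rfl

lemma meas_prod {S : Finset ℕ} {g : ℕ → (ℕ → Bool) → ℝ} (h : ∀ s, Measurable (g s)) :
    Measurable fun ω => ∏ s ∈ S, g s ω := Finset.measurable_fun_prod _ fun s _ => h s

lemma int_bdd {g : (ℕ → Bool) → ℝ} (hm : Measurable g) (hb : ∀ ω, |g ω| ≤ 1) : Integrable g cm :=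
  Integrable.of_bound hm.aestronglyMeasurable 1 (Filter.Eventually.of_forall fun ω => by
    rw [Real.norm_eq_abs]
    exact hb ω)

lemma int_fl (t : ℕ) {g : (ℕ → Bool) → ℝ} (hm : Measurable g) :
    ∫ ω, g (fl t ω) ∂cm = ∫ ω, g ω ∂cm := by
  have h2 := integral_map (μ := cm) (φ := fl t) (mp_fl t).measurable.aemeasurable
    (f := g) hm.aestronglyMeasurable
  rw [(mp_fl t).map_eq] at h2
  exact h2.symm

lemma abs_prod_le {S : Finset ℕ} {g : ℕ → ℝ} (h : ∀ s, |g s| ≤ 1) : |∏ s ∈ S, g s| ≤ 1 := by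
  rw [abs_prod]
  exact prod_le_one (fun _ _ => abs_nonneg _) fun s _ => h s

lemma abs_i0 (x : ZMod 2) : |i0 x| ≤ 1 := by
  rw [abs_of_nonneg (i0_nonneg x)]
  exact i0_le x

/-- inserting the indicator functions -/
lemma insert_ind (hq : Fam T q) {n m : ℕ} (hnm : n < m) (S : Finset ℕ)
    (hS : ∀ s ∈ S, 1 ≤ s ∧ 2 * s < m ∧ m - s ∈ T) :
    ∫ ω, ch2 (q ω n + q ω m) ∂cm =
      ∫ ω, ch2 (q ω n + q ω m) * ∏ s ∈ S, i0 (cf q n m s ω) ∂cm := by
  classical
  induction S using Finset.induction_on with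
  | empty => simp
  | insert a S ha ih =>
    rw [ih fun s hs => hS s (mem_insert_of_mem hs)]
    obtain ⟨ha1, ha2, ha3⟩ := hS a (mem_insert_self _ _)
    set G : (ℕ → Bool) → ℝ := fun ω => ch2 (q ω n + q ω m) * ∏ s ∈ S, i0 (cf q n m s ω) with hG
    have hmX : Measurable fun ω => ch2 (q ω n + q ω m) := by
      refine meas_loc _ m fun ω ω' h => ?_
      rw [hq.loc n ω ω' fun i hi => h i (by omega), hq.loc m ω ω' h]
    have hmG : Measurable G := hmX.mul (meas_prod fun s => hq.meas_cf n m s hnm)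
    have hbG : ∀ ω, |G ω| ≤ 1 := by
      intro ω
      rw [hG]
      simp only [abs_mul, abs_ch2, one_mul]
      exact abs_prod_le fun s => abs_i0 _
    have hfl : ∀ ω, G (fl (m - a) ω) = G ω * ch2 (cf q n m a ω) := by
      intro ω
      have h1 : q (fl (m - a) ω) m = q ω m + q ω a := by
        rw [hq.mid _ ha3 ω m (by omega) (by omega)]
        congr 2
        omega
      have h2 : q (fl (m - a) ω) n = q ω n + if m - a ≤ n then q ω (n - (m - a)) else 0 := by
        split_ifs with h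
        · exact hq.mid _ ha3 ω n h (by omega)
        · rw [add_zero]
          exact hq.low (by omega) ω
      have h3 : ∀ s ∈ S, cf q n m s (fl (m - a) ω) = cf q n m s ω := by
        intro s hs
        obtain ⟨hs1, hs2, _⟩ := hS s (mem_insert_of_mem hs)
        unfold cf
        rw [hq.low (by omega) ω]
        split_ifs with h
        · rw [hq.low (by omega) ω]
        · rfl
      simp only [hG]
      rw [prod_congr rfl fun s hs => by rw [h3 s hs], h1, h2]
      have h4 : q ω n + (if m - a ≤ n then q ω (n - (m - a)) else 0) + (q ω m + q ω a) =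
          (q ω n + q ω m) + cf q n m a ω := by
        unfold cf
        ring
      rw [h4, ch2_add]
      ring
    have hm2 : Measurable fun ω => G ω * ch2 (cf q n m a ω) := by
      refine hmG.mul ?_
      refine meas_loc _ a fun ω ω' h => ?_
      unfold cf
      rw [hq.loc a ω ω' h]
      split_ifs with h1
      · rw [hq.loc _ ω ω' fun i hi => h i (by omega)]
      · rfl
    have h5 : ∫ ω, G ω * ch2 (cf q n m a ω) ∂cm = ∫ ω, G ω ∂cm := by
      rw [← int_fl (m - a) hmG]
      exact integral_congr_ae (Filter.Eventually.of_forall fun ω => (hfl ω).symm)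
    have h6 : ∀ ω, ch2 (q ω n + q ω m) * ∏ s ∈ insert a S, i0 (cf q n m s ω) =
        (G ω + G ω * ch2 (cf q n m a ω)) / 2 := by
      intro ω
      rw [prod_insert ha, ← i0_eq]
      simp only [hG]
      ring
    rw [integral_congr_ae (Filter.Eventually.of_forall h6), integral_div,
      integral_add (int_bdd hmG hbG) (int_bdd hm2 fun ω => by
        rw [abs_mul, abs_ch2, mul_one]
        exact hbG ω), h5]
    ring

/-- the probability that all coefficients vanish -/
lemma prob_zero (hq : Fam T q) {n m : ℕ} (hnm : n < m) (S : Finset ℕ)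
    (hS : ∀ s ∈ S, 1 ≤ s ∧ s ∈ T) : ∫ ω, ∏ s ∈ S, i0 (cf q n m s ω) ∂cm = (1 / 2) ^ S.card := by
  classical
  induction S using Finset.induction_on_max with
  | empty => simp
  | insert a S ha ih =>
    have hna : a ∉ S := fun h => lt_irrefl _ (ha a h)
    obtain ⟨ha1, haT⟩ := hS a (mem_insert_self _ _)
    have ih' := ih fun s hs => hS s (mem_insert_of_mem hs)
    set Y : (ℕ → Bool) → ℝ := fun ω => ∏ s ∈ S, i0 (cf q n m s ω) with hY
    have hmY : Measurable Y := meas_prod fun s => hq.meas_cf n m s hnm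
    have hbY : ∀ ω, |Y ω| ≤ 1 := fun ω => abs_prod_le fun s => abs_i0 _
    have hYfl : ∀ ω, Y (fl a ω) = Y ω := by
      intro ω
      simp only [hY]
      refine prod_congr rfl fun s hs => ?_
      have hsa := ha s hs
      unfold cf
      rw [hq.low hsa ω]
      split_ifs with h
      · rw [hq.low (by omega) ω]
      · rfl
    have hcfl : ∀ ω, cf q n m a (fl a ω) = cf q n m a ω + 1 := by
      intro ω
      have h1 : q (fl a ω) a = q ω a + 1 := by
        rw [hq.mid a haT ω a le_rfl (by omega), Nat.sub_self, hq.zero]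
      unfold cf
      rw [h1]
      split_ifs with h
      · rw [hq.low (by omega) ω]
        ring
      · ring
    have hm2 : Measurable fun ω => i0 (cf q n m a ω) * Y ω := (hq.meas_cf n m a hnm).mul hmY
    have h1 : ∫ ω, i0 (cf q n m a ω) * Y ω ∂cm = ∫ ω, Y ω - i0 (cf q n m a ω) * Y ω ∂cm := by
      rw [← int_fl a hm2]
      refine integral_congr_ae (Filter.Eventually.of_forall fun ω => ?_)
      simp only
      rw [hcfl, hYfl, i0_succ]
      ring
    rw [integral_sub (int_bdd hmY hbY) (int_bdd hm2 fun ω => by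
      rw [abs_mul]
      have := mul_le_mul (abs_i0 (cf q n m a ω)) (hbY ω) (abs_nonneg _) zero_le_one
      linarith), ih'] at h1
    simp_rw [prod_insert hna]
    rw [card_insert_of_notMem hna, pow_succ]
    linarith

/-- **The correlation bound.** -/
theorem corr (hq : Fam T q) {n m : ℕ} (hnm : n < m) (S : Finset ℕ)
    (hS : ∀ s ∈ S, 1 ≤ s ∧ 2 * s < m ∧ s ∈ T ∧ m - s ∈ T) :
    |∫ ω, ch2 (q ω n) * ch2 (q ω m) ∂cm| ≤ (1 / 2) ^ S.card := by
  have h1 := insert_ind hq hnm S fun s hs => ⟨(hS s hs).1, (hS s hs).2.1, (hS s hs).2.2.2⟩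
  have h2 := prob_zero hq hnm S fun s hs => ⟨(hS s hs).1, (hS s hs).2.2.1⟩
  simp_rw [← ch2_add]
  rw [h1, ← h2]
  refine (abs_integral_le_integral_abs).trans ?_
  refine le_of_eq (integral_congr_ae (Filter.Eventually.of_forall fun ω => ?_))
  simp only
  rw [abs_mul, abs_ch2, one_mul, abs_of_nonneg (prod_nonneg fun s _ => i0_nonneg _)]

end Pool.Agent.Q163.PT
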